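import Mathlib
import Pool.Agent.K6.H14.ABC.Three

set_option autoImplicit false

namespace Pool.Agent.Results.MP_a793bb_nt.AsymptoticFormula

open NumberField IsDedekindDomain Filter Topology

variable {K : Type} [Field K] [NumberField K]

/-- the height `h(P)` of the point `P` with coordinates `x` -/
noncomputable def height (x : Fin 3 → K) : ℝ :=
  (∑ w : InfinitePlace K, (w.mult : ℝ) * Real.log (max (w (x 0)) (max (w (x 1)) (w (x 2)))) +
    ∑ᶠ v : HeightOneSpectrum (𝓞 K), Real.log
      (max (FinitePlace.mk v (x 0)) (max (FinitePlace.mk v (x 1)) (FinitePlace.mk v (x 2))))) /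
    (Module.finrank ℚ K : ℝ)

/-- the radical of the point `P` with coordinates `x`, without the primes of `T`: the sum of
`log N(v) / d` over the primes `v ∉ T` at which the valuations of the coordinates are not all
equal -/
noncomputable def rad (T : Set (HeightOneSpectrum (𝓞 K))) (x : Fin 3 → K) : ℝ :=
  (∑ᶠ (v : HeightOneSpectrum (𝓞 K)) (_ : v ∉ T ∧
      ¬ (FinitePlace.mk v (x 0) = FinitePlace.mk v (x 1) ∧
        FinitePlace.mk v (x 1) = FinitePlace.mk v (x 2))),
    Real.log (Ideal.absNorm v.asIdeal : ℝ)) / (Module.finrank ℚ K : ℝ)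

/-- the points `P = (a : b : c)`, of whatever height, with `a + b + c = 0`, `abc ≠ 0` and
`exp rad_T(P) ≤ X` -/
def Points (T : Set (HeightOneSpectrum (𝓞 K))) (X : ℝ) :
    Set (Projectivization K (Fin 3 → K)) :=
  {P | ∃ (x : Fin 3 → K) (hx : x ≠ 0), P = Projectivization.mk K x hx ∧ x 0 + x 1 + x 2 = 0 ∧
    x 0 * x 1 * x 2 ≠ 0 ∧ Real.exp (rad T x) ≤ X}

/-- those among them with `3 h(P) ≤ rad_T(P) + t` -/
def Near (T : Set (HeightOneSpectrum (𝓞 K))) (X t : ℝ) :
    Set (Projectivization K (Fin 3 → K)) :=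
  {P | ∃ (x : Fin 3 → K) (hx : x ≠ 0), P = Projectivization.mk K x hx ∧ x 0 + x 1 + x 2 = 0 ∧
    x 0 * x 1 * x 2 ≠ 0 ∧ Real.exp (rad T x) ≤ X ∧ 3 * height x ≤ rad T x + t}

open Pool.Agent.R365.RC Pool.Agent.R365.SH Pool.Agent.W223.AK Pool.Agent.H691R3
open Pool.Agent.K6.H14.ABC in
/-- **An asymptotic formula and a limit law for the abc conjecture over number fields.** Let `K` be
a number field of degree `d` and `T` a finite set of primes of `K`. Let `N(X)` be the number of all
points `P = (a : b : c)` over `K`, of whatever height, with `a + b + c = 0`, `abc ≠ 0` and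
`exp rad_T(P) ≤ X`. There are a constant `κ > 0` and a nondecreasing function `G` with
`G(t) = 0` for `t < 0` and `0 ≤ 1 - G(t) ≤ C exp (- c d t)` for every `c < 1/3`, such that
`N(X)` is finite, `N(X) / X ^ (2 d / 3)` tends to `κ` for `X → ∞`, and for EVERY real `t` the
proportion of those with `3 h(P) ≤ rad_T(P) + t` tends to `G(t)`. -/
theorem result : ∀ (K : Type) [Field K] [NumberField K] (T : Set (HeightOneSpectrum (𝓞 K))),
    T.Finite →
      (∀ X : ℝ, 1 ≤ X → (Points T X).Finite) ∧
      ∃ (κ : ℝ) (G : ℝ → ℝ), 0 < κ ∧ Monotone G ∧ (∀ t, t < 0 → G t = 0) ∧ (∀ t, G t ≤ 1) ∧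
        (∀ c : ℝ, 0 ≤ c → c < 1 / 3 → ∃ C : ℝ, ∀ t : ℝ,
          1 - G t ≤ C * Real.exp (-(c * Module.finrank ℚ K * t))) ∧
        Tendsto (fun X : ℝ => ((Points T X).ncard : ℝ) / X ^ (2 / (3 : ℝ) * Module.finrank ℚ K))
          atTop (𝓝 κ) ∧
        ∀ t : ℝ, Tendsto (fun X : ℝ => ((Near T X t).ncard : ℝ) / ((Points T X).ncard : ℝ))
          atTop (𝓝 (G t)) := by
  intro K _ _ T hT
  classical
  set d : ℝ := (Module.finrank ℚ K : ℝ) with hd
  have hdpos : 0 < d := by
    rw [hd]
    exact_mod_cast Module.finrank_pos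
  have hheight : ∀ x : Fin 3 → K, height x = H3 x / d := fun x => rfl
  have hrad : ∀ x : Fin 3 → K, rad T x = R3 T x / d := fun x => rfl
  set Ω : Set K := {y | Pt y} with hΩ
  set h : K → ℝ := fun y => H3 (z3 y) / d with hh
  set N : K → ℝ := fun y => R3 T (z3 y) / d with hN
  have hz0 : ∀ y : K, z3 y ≠ 0 := by
    intro y h
    have := congrFun h 1
    rw [z3_one] at this
    exact one_ne_zero this
  set f : K → Projectivization K (Fin 3 → K) := fun y => Projectivization.mk K (z3 y) (hz0 y)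
    with hf
  have hfinj : Function.Injective f := by
    intro y y' h
    simp only [hf] at h
    rw [Projectivization.mk_eq_mk_iff'] at h
    obtain ⟨a, ha⟩ := h
    have h1 := congrFun ha 1
    have h0 := congrFun ha 0
    rw [Pi.smul_apply, smul_eq_mul] at h0 h1
    rw [z3_one, z3_one, mul_one] at h1
    rw [h1, one_mul] at h0
    exact h0.symm
  -- transport of points
  have hto : ∀ (x : Fin 3 → K) (hx : x ≠ 0), x 0 + x 1 + x 2 = 0 → x 0 * x 1 * x 2 ≠ 0 →
      x 0 / x 1 ∈ Ω ∧ height x = h (x 0 / x 1) ∧ rad T x = N (x 0 / x 1) ∧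
        f (x 0 / x 1) = Projectivization.mk K x hx := by
    intro x hx hs hne
    have g0 : x 0 ≠ 0 := fun h => hne (by rw [h]; ring)
    have g1 : x 1 ≠ 0 := fun h => hne (by rw [h]; ring)
    have g2 : x 2 ≠ 0 := fun h => hne (by rw [h]; ring)
    refine ⟨⟨div_ne_zero g0 g1, ?_⟩, ?_, ?_, ?_⟩
    · intro h3
      apply g2
      have h4 : x 0 / x 1 * x 1 = x 0 := div_mul_cancel₀ _ g1
      have h5 : x 0 / x 1 = -1 := by linear_combination h3
      rw [h5] at h4
      linear_combination hs + h4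
    · rw [hheight, H3_eq g1 hs]
    · rw [hrad, R3_eq_z T hT g0 g1 g2 hs]
    · simp only [hf]
      rw [Projectivization.mk_eq_mk_iff']
      refine ⟨(x 1)⁻¹, ?_⟩
      funext i
      rw [Pi.smul_apply, smul_eq_mul]
      fin_cases i
      · show (x 1)⁻¹ * x 0 = x 0 / x 1
        rw [inv_mul_eq_div]
      · show (x 1)⁻¹ * x 1 = 1
        exact inv_mul_cancel₀ g1
      · show (x 1)⁻¹ * x 2 = -(x 0 / x 1 + 1)
        have h6 : x 2 = -(x 0 + x 1) := by linear_combination hs
        rw [h6]
        field_simp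
  have hprod : ∀ y ∈ Ω, z3 y 0 * z3 y 1 * z3 y 2 ≠ 0 := by
    intro y hy
    show y * 1 * -(y + 1) ≠ 0
    exact mul_ne_zero (mul_ne_zero hy.1 one_ne_zero) (neg_ne_zero.mpr hy.2)
  have hR : ∀ y ∈ Ω, R3 T (z3 y) = NTc T (α3 K) y := fun y hy =>
    R3_eq_NTc T hT ((off_iff y).mpr hy)
  have hexp : ∀ X : ℝ, 1 ≤ X → ∀ y, Real.exp (N y) ≤ X ↔ R3 T (z3 y) ≤ d * Real.log X := by
    intro X hX y
    have hX0 : 0 < X := by linarith
    rw [← Real.le_log_iff_exp_le hX0]
    simp only [hN]
    rw [div_le_iff₀ hdpos, mul_comm]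
  have himgP : ∀ X, 1 ≤ X →
      Points T X = f '' {x | Off (α3 K) x ∧ NTc T (α3 K) x ≤ d * Real.log X} := by
    intro X hX
    ext P
    constructor
    · rintro ⟨x, hx, rfl, hs, hne, h1⟩
      obtain ⟨e1, e2, e3, e4⟩ := hto x hx hs hne
      refine ⟨x 0 / x 1, ⟨(off_iff _).mpr e1, ?_⟩, e4⟩
      rw [← hR _ e1, ← hexp X hX, ← e3]
      exact h1
    · rintro ⟨y, ⟨hy, h1⟩, rfl⟩
      have hy' := (off_iff y).mp hy
      refine ⟨z3 y, hz0 y, rfl, z3_sum y, hprod y hy', ?_⟩
      rw [← hR _ hy', ← hexp X hX] at h1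
      exact h1
  have himgN : ∀ X t, 1 ≤ X → Near T X t =
      f '' {x | Off (α3 K) x ∧ NTc T (α3 K) x ≤ d * Real.log X ∧
        Dp T (α3 K) (ΨM (r := 2) (α3 K) (α3 K)) (aff x) ≤ d * t} := by
    intro X t hX
    have key : ∀ y, Off (α3 K) y → (3 * h y ≤ N y + t ↔
        Dp T (α3 K) (ΨM (r := 2) (α3 K) (α3 K)) (aff y) ≤ d * t) := by
      intro y hy
      rw [Dp_three T hT hy]
      simp only [hh, hN]
      have e1 : 3 * (H3 (z3 y) / d) ≤ R3 T (z3 y) / d + t ↔
          (3 * H3 (z3 y) - R3 T (z3 y)) / d ≤ t := by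
        rw [sub_div, mul_div_assoc]
        constructor <;> intro h <;> linarith
      rw [e1, div_le_iff₀ hdpos, mul_comm t d]
    ext P
    constructor
    · rintro ⟨x, hx, rfl, hs, hne, h1, h2⟩
      obtain ⟨e1, e2, e3, e4⟩ := hto x hx hs hne
      refine ⟨x 0 / x 1, ⟨(off_iff _).mpr e1, ?_, ?_⟩, e4⟩
      · rw [← hR _ e1, ← hexp X hX, ← e3]
        exact h1
      · rw [← key _ ((off_iff _).mpr e1), ← e3, ← e2]
        exact h2
    · rintro ⟨y, ⟨hy, h1, h2⟩, rfl⟩
      have hy' := (off_iff y).mp hy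
      refine ⟨z3 y, hz0 y, rfl, z3_sum y, hprod y hy', ?_, ?_⟩
      · rw [← hR _ hy', ← hexp X hX] at h1
        exact h1
      · rw [← key _ hy] at h2
        exact h2
  obtain ⟨κ, G, hκ0, hG1, _, hG3, hG4, hfin, hall, hnear⟩ :=
    law T hT (le_refl 3) (α := α3 K) α3_ne α3_wg (adm_ΨM (by norm_num) (α3 K) α3_coord)
      (fun t => null_level (by norm_num) α3_ne α3_wg α3_coord α3_ne _ t)
  have hlim : Tendsto (fun X : ℝ => d * Real.log X) atTop atTop :=
    Real.tendsto_log_atTop.const_mul_atTop hdpos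
  have hlaw : ∀ t : ℝ, Tendsto (fun X : ℝ => ((Near T X t).ncard : ℝ) /
      ((Points T X).ncard : ℝ)) atTop (𝓝 (G (d * t))) := by
    intro t
    refine ((hnear (d * t)).comp hlim).congr' ?_
    filter_upwards [eventually_ge_atTop 1] with X hX
    simp only [Function.comp_apply]
    rw [himgN X t hX, himgP X hX, Set.ncard_image_of_injective _ hfinj,
      Set.ncard_image_of_injective _ hfinj]
  refine ⟨fun X hX => ?_, κ, fun t => G (d * t), hκ0, ?_, ?_, fun t => hG3 _, ?_, ?_, hlaw⟩
  · rw [himgP X hX]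
    exact (hfin _).image f
  · intro s t hst
    exact hG1 (mul_le_mul_of_nonneg_left hst hdpos.le)
  · intro t ht
    have h0 : ∀ X, 1 ≤ X → Near T X t = ∅ := by
      intro X hX
      rw [himgN X t hX, Set.image_eq_empty, Set.eq_empty_iff_forall_notMem]
      rintro y ⟨hy, _, h2⟩
      have hy' := (off_iff y).mp hy
      rw [Dp_three T hT hy] at h2
      have h3 : 0 ≤ 3 * H3 (z3 y) - R3 T (z3 y) := by
        have hp0 := aff_ne_zero y
        have g1 := Dp_three T hT hy
        rw [← g1]
        unfold Dp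
        have g2 : 0 ≤ Sx T (α3 K) (aff y) := by
          have := SZ_le_Sx T α3_ne hp0 hy ∅
          have h6 : SZ T (α3 K) ∅ (aff y) = 0 := Finset.sum_empty
          rwa [h6] at this
        have g3 : 0 ≤ ΨM (r := 2) (α3 K) (α3 K) (jK (aff y)) := by
          unfold ΨM
          have hN0 : NN (α3 K) (jK (aff y)) ≠ 0 := NN_jK_ne.mpr hy
          have hN1 : 0 < NN (α3 K) (jK (aff y)) :=
            lt_of_le_of_ne (NN_nonneg _ _) (Ne.symm hN0)
          have hle : NN (α3 K) (jK (aff y)) ≤ HM (r := 2) (α3 K) (jK (aff y)) ^ 3 := by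
            rw [NN_rho]
            unfold HM
            rw [← Finset.prod_pow]
            refine Finset.prod_le_prod (fun w _ => pow_nonneg
              (Finset.prod_nonneg fun l _ => NumberField.mixedEmbedding.normAtPlace_nonneg w _) _)
              fun w _ => ?_
            rw [← pow_mul, mul_comm (w.mult) 3, pow_mul]
            refine pow_le_pow_left₀
              (Finset.prod_nonneg fun l _ => NumberField.mixedEmbedding.normAtPlace_nonneg w _)
              ?_ _
            have : ∏ l : Fin 3, mM (r := 2) (α3 K) w (jK (aff y)) =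
                mM (r := 2) (α3 K) w (jK (aff y)) ^ 3 := by
              rw [Finset.prod_const, Finset.card_univ, Fintype.card_fin]
            rw [← this]
            exact Finset.prod_le_prod
              (fun l _ => NumberField.mixedEmbedding.normAtPlace_nonneg w _)
              fun l _ => le_mM (r := 2) (α3 K) w _ l
          have hlog := Real.log_le_log hN1 hle
          rw [Real.log_pow] at hlog
          push_cast at hlog ⊢
          linarith
        linarith
      have h4 : d * t < 0 := mul_neg_of_pos_of_neg hdpos ht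
      linarith
    have h1 : Tendsto (fun X : ℝ => ((Near T X t).ncard : ℝ) / ((Points T X).ncard : ℝ))
        atTop (𝓝 0) := by
      refine tendsto_const_nhds.congr' ?_
      filter_upwards [eventually_ge_atTop 1] with X hX
      rw [h0 X hX, Set.ncard_empty, Nat.cast_zero, zero_div]
    exact tendsto_nhds_unique (hlaw t) h1
  · intro c hc0 hc1
    obtain ⟨C, hC⟩ := hG4 c hc0 (by push_cast; linarith)
    refine ⟨C, fun t => ?_⟩
    have := hC (d * t)
    have e1 : -c * (d * t) = -(c * d * t) := by ring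
    rw [e1] at this
    exact this
  · refine (hall.comp hlim).congr' ?_
    filter_upwards [eventually_ge_atTop 1] with X hX
    have hX0 : 0 < X := by linarith
    simp only [Function.comp_apply]
    rw [himgP X hX, Set.ncard_image_of_injective _ hfinj, Real.rpow_def_of_pos hX0]
    congr 2
    push_cast
    ring

end Pool.Agent.Results.MP_a793bb_nt.AsymptoticFormula
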