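import Pool.Agent.K6.H25.RS.Six

/-!
# Almost every radical over a number field belongs to one abc triple, and is isolated

`K` is a number field of degree `d`, `T` a finite set of primes of `K`. The points
`P = (a : b : c)` over `K` with `a + b + c = 0` and `abc ≠ 0`, of all heights, are ordered by their
radical; `I_T(P)` is the set of the primes outside `T` at which the valuations of the coordinates
are not all equal. The number of the points is six times the number of the sets `I_T(P)`, up to a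
power-saving error, and almost all of these sets, up to primes whose product has norm at most
`X ^ (d η)`, belong to one point, up to the order of the coordinates, which satisfies the
inequality.

Two points `(α : β : γ)` and `(α' : β' : γ')` of small height with nearly the same radical satisfy
`w α β γ = w' α' β' γ'` with small `w`, `w'`. With `α = r g`, `β = h ξ`, `α' = s g`, `β' = h ζ` and
`g`, `h` common divisors, the number `u = (w r² ξ - w' s² ζ) / h = (w' s ζ² - w r ξ²) / g` is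
integral and divides `w w' r s (w r³ - w' s³)`, which does not vanish unless the points are
permutations of each other. So `u` takes few values, and if it is fixed the `ζ` lie in a class
modulo `r²`, in a box: this gives a power saving for the number of the pairs. The points of larger
height are few by the theorem of the file `AlmostAllPoints`.
-/

set_option autoImplicit false
set_option linter.unusedSectionVars false

namespace Pool.Agent.Results.MP_a793bb_nt.RadicalsSeparated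

open NumberField IsDedekindDomain

variable {K : Type} [Field K] [NumberField K]

/-- the height `h(P)` of the point `P` with coordinates `x` -/
noncomputable def height (x : Fin 3 → K) : ℝ :=
  (∑ w : InfinitePlace K, (w.mult : ℝ) * Real.log (max (w (x 0)) (max (w (x 1)) (w (x 2)))) +
    ∑ᶠ v : HeightOneSpectrum (𝓞 K), Real.log
      (max (FinitePlace.mk v (x 0)) (max (FinitePlace.mk v (x 1)) (FinitePlace.mk v (x 2))))) /
    (Module.finrank ℚ K : ℝ)

/-- the coordinates of a point of the line `a + b + c = 0` with `abc ≠ 0` -/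
def IsPoint (x : Fin 3 → K) : Prop := x 0 + x 1 + x 2 = 0 ∧ x 0 * x 1 * x 2 ≠ 0

/-- the set `I_T(P)`: the primes `v ∉ T` at which the valuations of the coordinates are not all
equal -/
def supp (T : Set (HeightOneSpectrum (𝓞 K))) (x : Fin 3 → K) : Set (HeightOneSpectrum (𝓞 K)) :=
  {v | v ∉ T ∧ ¬ (FinitePlace.mk v (x 0) = FinitePlace.mk v (x 1) ∧
    FinitePlace.mk v (x 1) = FinitePlace.mk v (x 2))}

/-- the radical `rad_T(P)`: the sum of `log N(v) / d` over the primes of `I_T(P)` -/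
noncomputable def rad (T : Set (HeightOneSpectrum (𝓞 K))) (x : Fin 3 → K) : ℝ :=
  (∑ᶠ (v : HeightOneSpectrum (𝓞 K)) (_ : v ∈ supp T x),
    Real.log (Ideal.absNorm v.asIdeal : ℝ)) / (Module.finrank ℚ K : ℝ)

/-- the distance of the radicals of `P` and `Q`: the sum of `log N(v) / d` over the primes which
belong to exactly one of the sets `I_T(P)`, `I_T(Q)` -/
noncomputable def dist (T : Set (HeightOneSpectrum (𝓞 K))) (x y : Fin 3 → K) : ℝ :=
  (∑ᶠ (v : HeightOneSpectrum (𝓞 K)) (_ : v ∈ symmDiff (supp T x) (supp T y)),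
    Real.log (Ideal.absNorm v.asIdeal : ℝ)) / (Module.finrank ℚ K : ℝ)

/-- the points with coordinates `x` and `y` differ by a permutation of the coordinates -/
def Permuted (x y : Fin 3 → K) : Prop :=
  ∃ (σ : Equiv.Perm (Fin 3)) (t : K), t ≠ 0 ∧ ∀ l, y l = t * x (σ l)

/-- the points `P` with `exp rad_T(P) ≤ X` -/
def Points (T : Set (HeightOneSpectrum (𝓞 K))) (X : ℝ) :
    Set (Projectivization K (Fin 3 → K)) :=
  {P | ∃ (x : Fin 3 → K) (hx : x ≠ 0), P = Projectivization.mk K x hx ∧ IsPoint x ∧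
    Real.exp (rad T x) ≤ X}

/-- the radicals: the sets `I_T(P)` of the points `P` with `exp rad_T(P) ≤ X` -/
def Radicals (T : Set (HeightOneSpectrum (𝓞 K))) (X : ℝ) :
    Set (Set (HeightOneSpectrum (𝓞 K))) :=
  {R | ∃ x : Fin 3 → K, IsPoint x ∧ Real.exp (rad T x) ≤ X ∧ R = supp T x}

/-- the set `R` of primes is the set `I_T(P)` of a point `P`, and all points `Q` with
`dist_T(P, Q) ≤ η log X` are permutations of `P` and satisfy `h(Q) < M rad_T(Q)` -/
def Regular (T : Set (HeightOneSpectrum (𝓞 K))) (M η X : ℝ)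
    (R : Set (HeightOneSpectrum (𝓞 K))) : Prop :=
  ∃ x : Fin 3 → K, IsPoint x ∧ R = supp T x ∧ ∀ y : Fin 3 → K, IsPoint y →
    dist T x y ≤ η * Real.log X → Permuted x y ∧ height y < M * rad T y

section Bridge

open Pool.Agent.K6.H25.RS Pool.Agent.TH876.Loc

theorem coord {x : Fin 3 → K} (hx : IsPoint x) (l : Fin 3) : x l = x 1 * cc l (x 0 / x 1) := by
  have h1 : x 1 ≠ 0 := fun h => hx.2 (by rw [h]; ring)
  fin_cases l
  · show x 0 = x 1 * (x 0 / x 1)
    field_simp
  · show x 1 = x 1 * 1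
    rw [mul_one]
  · show x 2 = x 1 * (-(x 0 / x 1) - 1)
    field_simp
    linear_combination hx.1

theorem permuted_of {x y : Fin 3 → K} (hx : IsPoint x) (hy : IsPoint y)
    (h : IsPerm (x 0 / x 1) (y 0 / y 1)) : Permuted x y := by
  obtain ⟨σ, t, ht, h⟩ := h
  have h1 : x 1 ≠ 0 := fun h => hx.2 (by rw [h]; ring)
  have h2 : y 1 ≠ 0 := fun h => hy.2 (by rw [h]; ring)
  refine ⟨σ, y 1 * t / x 1, div_ne_zero (mul_ne_zero h2 ht) h1, fun l => ?_⟩
  rw [coord hx (σ l), coord hy l, h l]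
  field_simp

theorem isPoint_cc {z : K} (hz : Pt z) : IsPoint (fun l => cc l z) := by
  refine ⟨?_, ?_⟩
  · show z + 1 + (-z - 1) = 0
    ring
  · show z * 1 * (-z - 1) ≠ 0
    have : -z - 1 ≠ 0 := fun h => hz.2 (by linear_combination -h)
    exact mul_ne_zero (mul_ne_zero hz.1 one_ne_zero) this

theorem cc_div (z : K) : cc 0 z / cc 1 z = z := by
  show z / 1 = z
  rw [div_one]

theorem rad_eq (T : Finset (Pr K)) (x : Fin 3 → K) :
    rad (T : Set (Pr K)) x = Pool.Agent.Y728.radT (T : Set (Pr K)) x := rfl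

theorem height_eq (x : Fin 3 → K) : height x = Pool.Agent.Y728.AK.height3 x := rfl

open Classical in
theorem supp_eq (T : Finset (Pr K)) {x : Fin 3 → K} (hx : IsPoint x) :
    supp (T : Set (Pr K)) x = ((sp (x 0 / x 1) \ T : Finset (Pr K)) : Set (Pr K)) := by
  ext v
  rw [Finset.mem_coe, Finset.mem_sdiff, sp_of_triple hx.1 hx.2 v]
  exact and_comm

open Classical in
theorem rad_le_iff (T : Finset (Pr K)) {x : Fin 3 → K} (hx : IsPoint x) {X : ℝ} (hX : 0 < X) :
    Real.exp (rad (T : Set (Pr K)) x) ≤ X ↔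
      nn (sp (x 0 / x 1) \ T) ≤ X ^ (Module.finrank ℚ K : ℝ) := by
  have hd : (0 : ℝ) < Module.finrank ℚ K := by
    exact_mod_cast (Module.finrank_pos (R := ℚ) (M := K))
  rw [← Pool.Agent.Y728.exp_radT T hx.1 hx.2, ← rad_eq, mul_comm, Real.exp_mul]
  exact (Real.rpow_le_rpow_iff (Real.exp_pos _).le hX.le hd).symm

open Classical in
theorem dist_eq (T : Finset (Pr K)) {x y : Fin 3 → K} (hx : IsPoint x) (hy : IsPoint y) :
    (Module.finrank ℚ K : ℝ) * dist (T : Set (Pr K)) x y =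
      Real.log (nn (sd T (x 0 / x 1) (y 0 / y 1))) := by
  have hd : (Module.finrank ℚ K : ℝ) ≠ 0 := by
    exact_mod_cast (Module.finrank_pos (R := ℚ) (M := K)).ne'
  have h1 : symmDiff (supp (T : Set (Pr K)) x) (supp (T : Set (Pr K)) y) =
      ((sd T (x 0 / x 1) (y 0 / y 1) : Finset (Pr K)) : Set (Pr K)) := by
    rw [supp_eq T hx, supp_eq T hy]
    ext v
    rw [Set.mem_symmDiff, Finset.mem_coe, Finset.mem_coe, Finset.mem_coe]
    unfold sd
    simp only [Finset.mem_sdiff, Finset.mem_union]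
    tauto
  unfold dist
  rw [h1, mul_div_cancel₀ _ hd, Pool.Agent.TH876.KR.log_nn]
  exact finsum_mem_coe_finset _ _

/-- the point with affine coordinate `z` -/
noncomputable def pt3 (z : K) : Projectivization K (Fin 3 → K) :=
  Projectivization.mk K (fun l => cc l z) (by
    intro h
    have : cc 1 z = 0 := congrFun h 1
    exact one_ne_zero this)

theorem pt3_inj : Function.Injective (pt3 (K := K)) := by
  intro z z' h
  unfold pt3 at h
  rw [Projectivization.mk_eq_mk_iff'] at h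
  obtain ⟨a, ha⟩ := h
  have h1 : a * 1 = 1 := congrFun ha 1
  have h0 : a * z' = z := congrFun ha 0
  rw [mul_one] at h1
  rw [h1, one_mul] at h0
  exact h0.symm

theorem pt3_of {x : Fin 3 → K} (hx0 : x ≠ 0) (hx : IsPoint x) :
    Projectivization.mk K x hx0 = pt3 (x 0 / x 1) := by
  have h1 : x 1 ≠ 0 := fun h => hx.2 (by rw [h]; ring)
  unfold pt3
  rw [Projectivization.mk_eq_mk_iff']
  refine ⟨x 1, ?_⟩
  funext l
  rw [Pi.smul_apply, smul_eq_mul]
  exact (coord hx l).symm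

theorem mem_AP (T : Finset (Pr K)) {X : ℝ} (hX : 0 < X) {x : Fin 3 → K} (hx : IsPoint x)
    (h : Real.exp (rad (T : Set (Pr K)) x) ≤ X) :
    x 0 / x 1 ∈ AP T (X ^ (Module.finrank ℚ K : ℝ)) := by
  classical
  refine ⟨pt_of_triple hx.1 hx.2, ?_⟩
  convert (rad_le_iff T hx hX).1 h

theorem of_mem_AP (T : Finset (Pr K)) {X : ℝ} (hX : 0 < X) {z : K}
    (h : z ∈ AP T (X ^ (Module.finrank ℚ K : ℝ))) :
    IsPoint (fun l => cc l z) ∧ Real.exp (rad (T : Set (Pr K)) (fun l => cc l z)) ≤ X := by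
  classical
  have hp := isPoint_cc h.1
  refine ⟨hp, ?_⟩
  rw [rad_le_iff T hp hX, cc_div]
  convert h.2

theorem points_eq (T : Finset (Pr K)) {X : ℝ} (hX : 0 < X) :
    Points (T : Set (Pr K)) X = pt3 '' (AP T (X ^ (Module.finrank ℚ K : ℝ))) := by
  ext P
  constructor
  · rintro ⟨x, hx, h1, h2, h3⟩
    exact ⟨x 0 / x 1, mem_AP T hX h2 h3, (h1.trans (pt3_of hx h2)).symm⟩
  · rintro ⟨z, hz, rfl⟩
    obtain ⟨h1, h2⟩ := of_mem_AP T hX hz
    exact ⟨_, _, rfl, h1, h2⟩

open Classical in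
theorem radicals_eq (T : Finset (Pr K)) {X : ℝ} (hX : 0 < X) :
    Radicals (T : Set (Pr K)) X =
      (fun z => ((sp z \ T : Finset (Pr K)) : Set (Pr K))) ''
        (AP T (X ^ (Module.finrank ℚ K : ℝ))) := by
  ext R
  constructor
  · rintro ⟨x, h2, h3, h4⟩
    exact ⟨x 0 / x 1, mem_AP T hX h2 h3, (h4.trans (supp_eq T h2)).symm⟩
  · rintro ⟨z, hz, rfl⟩
    obtain ⟨h1, h2⟩ := of_mem_AP T hX hz
    refine ⟨_, h1, h2, ?_⟩
    rw [supp_eq T h1, cc_div]

theorem sp_perm {z z' : K} (hz : Pt z) (h : IsPerm z z') : sp z' = sp z := by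
  obtain ⟨σ, t, ht, h3⟩ := h
  have a0 := h3 0
  have a1 := h3 1
  have e0 : cc 0 z' = z' := rfl
  have e1 : cc 1 z' = 1 := rfl
  rw [e0] at a0
  rw [e1] at a1
  have n1 := cc_ne hz (σ 1)
  have h4 : z' = gq (σ 0, σ 1) z := by
    unfold gq
    rw [eq_div_iff n1]
    have : cc (σ 0) z * (t * cc (σ 1) z) = z' * cc (σ 1) z := by
      rw [a0]; ring
    rw [← a1, mul_one] at this
    exact this.symm
  have h5 : σ 0 ≠ σ 1 := fun h => absurd (σ.injective h) (by decide)
  rw [h4, gq_sp hz h5]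

open Classical in
/-- the points which are not isolated -/
theorem notIso_count (T : Finset (Pr K)) {η ν C : ℝ}
    (key : ∀ (X : ℝ), 1 ≤ X → ∀ E : Finset K,
    (∀ x ∈ E, Pt x ∧ nn (sp x \ T) ≤ X ∧ ∃ y, Pt y ∧ ¬ IsPerm x y ∧
      Real.log (nn (sd T x y)) ≤ η * Real.log X) →
    (E.card : ℝ) ≤ C * X ^ (2 / 3 - ν)) {Y : ℝ} (hY : 1 ≤ Y) :
    ((((AP_finite T hY).toFinset).filter (fun x => ¬ Iso T η Y x)).card : ℝ) ≤
      C * Y ^ (2 / 3 - ν) := by
  refine key Y hY _ ?_
  intro x hx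
  rw [Finset.mem_filter, Set.Finite.mem_toFinset] at hx
  obtain ⟨h1, h2⟩ := hx
  unfold Iso at h2
  push Not at h2
  obtain ⟨y, h3, h4, h5⟩ := h2
  refine ⟨h1.1, ?_, y, h3, h5, h4⟩
  convert h1.2

end Bridge

open Pool.Agent.K6.H25.RS Pool.Agent.TH876.Loc

open Classical in
theorem radicals_count (T : Finset (Pr K)) {η ν C : ℝ} (hη : 0 ≤ η) (hν : ν ≤ 1 / 1000)
    (hC : 0 < C)
    (key : ∀ (X : ℝ), 1 ≤ X → ∀ E : Finset K,
    (∀ x ∈ E, Pt x ∧ nn (sp x \ T) ≤ X ∧ ∃ y, Pt y ∧ ¬ IsPerm x y ∧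
      Real.log (nn (sd T x y)) ≤ η * Real.log X) →
    (E.card : ℝ) ≤ C * X ^ (2 / 3 - ν)) : ∃ C' : ℝ, 0 < C' ∧ ∀ X : ℝ, 1 ≤ X →
    (Points (T : Set (Pr K)) X).Finite ∧ (Radicals (T : Set (Pr K)) X).Finite ∧
    |((Points (T : Set (Pr K)) X).ncard : ℝ) - 6 * ((Radicals (T : Set (Pr K)) X).ncard : ℝ)| ≤
      C' * X ^ ((Module.finrank ℚ K : ℝ) * (2 / 3) - (Module.finrank ℚ K : ℝ) * ν) := by
  set c₅ : ℝ := ((Sp5_finite K).toFinset.card : ℝ) with hc₅
  have hc₅0 : 0 ≤ c₅ := Nat.cast_nonneg _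
  refine ⟨5 * (C + c₅), by positivity, fun X hX => ?_⟩
  have hX0 : 0 < X := by linarith
  have hd : (0 : ℝ) < Module.finrank ℚ K := by
    exact_mod_cast (Module.finrank_pos (R := ℚ) (M := K))
  set d : ℝ := (Module.finrank ℚ K : ℝ) with hdd
  have hY : 1 ≤ X ^ d := Real.one_le_rpow hX hd.le
  set Y : ℝ := X ^ d with hYd
  have hfin := AP_finite T hY
  set A := hfin.toFinset with hA
  have hmem : ∀ x, x ∈ A ↔ Pt x ∧ nn (sp x \ T) ≤ Y := by
    intro x
    rw [hA, Set.Finite.mem_toFinset]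
    constructor
    · intro h
      refine ⟨h.1, ?_⟩
      convert h.2
    · intro h
      refine ⟨h.1, ?_⟩
      convert h.2
  set B₁ := A.filter (fun x => ¬ Iso T η Y x) with hB₁
  set B := B₁ ∪ (Sp5_finite K).toFinset with hB
  have h1 := aff_radicals hη hY hmem (B := B) (by
    intro x hx hxB
    rw [hB, Finset.mem_union, not_or] at hxB
    obtain ⟨b1, b2⟩ := hxB
    rw [hB₁, Finset.mem_filter, not_and, not_not] at b1
    rw [Set.Finite.mem_toFinset] at b2
    exact ⟨b1 hx, b2⟩)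
  have h2 : (B.card : ℝ) ≤ (C + c₅) * Y ^ (2 / 3 - ν) := by
    have e1 : (B.card : ℝ) ≤ B₁.card + c₅ := by
      rw [hc₅]
      exact_mod_cast Finset.card_union_le _ _
    have e2 := notIso_count T key hY
    have e3 : 1 ≤ Y ^ (2 / 3 - ν) := Real.one_le_rpow hY (by linarith)
    have e4 : c₅ ≤ c₅ * Y ^ (2 / 3 - ν) := le_mul_of_one_le_right hc₅0 e3
    linarith
  have n1 : (Points (T : Set (Pr K)) X).ncard = A.card := by
    rw [points_eq T hX0, Set.ncard_image_of_injective _ pt3_inj, ← Set.ncard_coe_finset A, hA,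
      Set.Finite.coe_toFinset]
  have n2 : (Radicals (T : Set (Pr K)) X).ncard = (A.image (fun x => sp x \ T)).card := by
    have e : (fun z : K => ((sp z \ T : Finset (Pr K)) : Set (Pr K))) =
        (fun s : Finset (Pr K) => (s : Set (Pr K))) ∘ (fun z : K => sp z \ T) := rfl
    rw [radicals_eq T hX0, e, Set.image_comp, Set.ncard_image_of_injective _
      Finset.coe_injective, ← Set.ncard_coe_finset (A.image (fun x => sp x \ T)),
      Finset.coe_image, hA, Set.Finite.coe_toFinset]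
  refine ⟨?_, ?_, ?_⟩
  · rw [points_eq T hX0]
    exact hfin.image _
  · rw [radicals_eq T hX0]
    exact hfin.image _
  · rw [n1, n2]
    refine h1.trans ?_
    have e5 : Y ^ (2 / 3 - ν) = X ^ (d * (2 / 3) - d * ν) := by
      rw [hYd, ← Real.rpow_mul hX0.le]
      congr 1
      ring
    rw [← e5]
    linarith

open Classical in
theorem irregular_count (T : Finset (Pr K)) {η ν C : ℝ} (hν0 : 0 < ν)
    (hC : 0 < C)
    (key : ∀ (X : ℝ), 1 ≤ X → ∀ E : Finset K,
    (∀ x ∈ E, Pt x ∧ nn (sp x \ T) ≤ X ∧ ∃ y, Pt y ∧ ¬ IsPerm x y ∧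
      Real.log (nn (sd T x y)) ≤ η * Real.log X) →
    (E.card : ℝ) ≤ C * X ^ (2 / 3 - ν)) {M : ℝ} (hM : 1 / 3 < M) :
    ∃ ν' C' : ℝ, 0 < ν' ∧ 0 < C' ∧ ∀ X : ℝ, 1 ≤ X →
    (({R | R ∈ Radicals (T : Set (Pr K)) X ∧
      ¬ Regular (T : Set (Pr K)) M η X R}.ncard : ℕ) : ℝ) ≤
      C' * X ^ ((Module.finrank ℚ K : ℝ) * (2 / 3) - ν') := by
  have hd : (0 : ℝ) < Module.finrank ℚ K := by
    exact_mod_cast (Module.finrank_pos (R := ℚ) (M := K))
  obtain ⟨ν₁, hν₁, C₁, hC₁, exc⟩ := Pool.Agent.Y728.AK.exc_aff K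
    (Pool.Agent.Y728.AK.almost_allK K) T hM
  set d : ℝ := (Module.finrank ℚ K : ℝ) with hdd
  refine ⟨d * min ν ν₁, C + C₁, mul_pos hd (lt_min hν0 hν₁), by positivity, fun X hX => ?_⟩
  have hX0 : 0 < X := by linarith
  have hY : 1 ≤ X ^ d := Real.one_le_rpow hX hd.le
  set Y : ℝ := X ^ d with hYd
  have hfin := AP_finite T hY
  set A := hfin.toFinset with hA
  have hmem : ∀ x, x ∈ A ↔ Pt x ∧ nn (sp x \ T) ≤ Y := by
    intro x
    rw [hA, Set.Finite.mem_toFinset]
    constructor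
    · intro h
      refine ⟨h.1, ?_⟩
      convert h.2
    · intro h
      refine ⟨h.1, ?_⟩
      convert h.2
  set B₁ := A.filter (fun x => ¬ Iso T η Y x) with hB₁
  set V := A.filter (fun x => M * Real.log (nn (sp x \ T)) ≤ hgt x) with hV
  have hsub : {R | R ∈ Radicals (T : Set (Pr K)) X ∧ ¬ Regular (T : Set (Pr K)) M η X R} ⊆
      (fun z : K => ((sp z \ T : Finset (Pr K)) : Set (Pr K))) '' ((B₁ ∪ V : Finset K) : Set K) := by
    rintro R ⟨⟨x, h1, h2, h3⟩, h4⟩
    have hz : x 0 / x 1 ∈ A := by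
      rw [hmem]
      exact ⟨pt_of_triple h1.1 h1.2, (rad_le_iff T h1 hX0).1 h2⟩
    have hzp := ((hmem _).1 hz).1
    by_cases hB : x 0 / x 1 ∈ B₁
    · exact ⟨x 0 / x 1, Finset.mem_coe.2 (Finset.mem_union_left _ hB), by
        rw [h3, supp_eq T h1]⟩
    have hiso : Iso T η Y (x 0 / x 1) := by
      rw [hB₁, Finset.mem_filter, not_and, not_not] at hB
      exact hB hz
    by_cases hW : ∃ y ∈ V, sp y \ T = sp (x 0 / x 1) \ T
    · obtain ⟨y, hy, hy2⟩ := hW
      refine ⟨y, Finset.mem_coe.2 (Finset.mem_union_right _ hy), ?_⟩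
      show ((sp y \ T : Finset (Pr K)) : Set (Pr K)) = R
      rw [hy2, h3, supp_eq T h1]
    exfalso
    apply h4
    refine ⟨x, h1, h3, fun y hy hdist => ?_⟩
    have h5 : IsPerm (x 0 / x 1) (y 0 / y 1) := by
      apply hiso _ (pt_of_triple hy.1 hy.2)
      rw [← dist_eq T h1 hy, ← hdd, hYd, Real.log_rpow hX0]
      have := mul_le_mul_of_nonneg_left hdist hd.le
      linarith
    refine ⟨permuted_of h1 hy h5, ?_⟩
    have h6 := sp_perm hzp h5
    have h7 : y 0 / y 1 ∉ V := fun h => hW ⟨_, h, by rw [h6]⟩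
    have h8 : y 0 / y 1 ∈ A := by
      rw [hmem]
      exact ⟨pt_of_triple hy.1 hy.2, by rw [h6]; exact ((hmem _).1 hz).2⟩
    rw [hV, Finset.mem_filter, not_and, not_le] at h7
    have h9 := h7 h8
    rw [← Pool.Agent.Y728.AK.radT_eq T hy.1 hy.2, ← Pool.Agent.Y728.AK.height3_eq hy.1 hy.2,
      ← rad_eq, ← height_eq, ← hdd] at h9
    have h10 : d * height y < d * (M * rad (T : Set (Pr K)) y) := by linarith
    exact lt_of_mul_lt_mul_left h10 hd.le
  have c1 := notIso_count T key hY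
  have c2 := exc Y hY V (fun x hx => by
    rw [hV, Finset.mem_filter, hmem] at hx
    exact ⟨hx.1.1, hx.1.2, hx.2⟩)
  have c3 : (({R | R ∈ Radicals (T : Set (Pr K)) X ∧
      ¬ Regular (T : Set (Pr K)) M η X R}.ncard : ℕ) : ℝ) ≤ (B₁.card : ℝ) + V.card := by
    have e1 := Set.ncard_le_ncard hsub ((Finset.finite_toSet _).image _)
    have e2 := e1.trans (Set.ncard_image_le (Finset.finite_toSet _))
    rw [Set.ncard_coe_finset] at e2
    have e3 := e2.trans (Finset.card_union_le _ _)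
    exact_mod_cast e3
  have e5 : ∀ a : ℝ, Y ^ (2 / 3 - a) = X ^ (d * (2 / 3) - d * a) := by
    intro a
    rw [hYd, ← Real.rpow_mul hX0.le]
    congr 1
    ring
  have e6 : Y ^ (2 / 3 - ν) ≤ X ^ (d * (2 / 3) - d * min ν ν₁) := by
    rw [e5]
    apply Real.rpow_le_rpow_of_exponent_le hX
    have := mul_le_mul_of_nonneg_left (min_le_left ν ν₁) hd.le
    linarith
  have e7 : Y ^ (2 / 3 - ν₁) ≤ X ^ (d * (2 / 3) - d * min ν ν₁) := by
    rw [e5]
    apply Real.rpow_le_rpow_of_exponent_le hX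
    have := mul_le_mul_of_nonneg_left (min_le_right ν ν₁) hd.le
    linarith
  have e8 := mul_le_mul_of_nonneg_left e6 hC.le
  have e9 := mul_le_mul_of_nonneg_left e7 hC₁.le
  linarith

/-- **Almost every radical belongs to one abc triple and is isolated.** Let `K` be a number field
of degree `d` and `T` a finite set of primes of `K`. There is `η > 0` such that
(1) the number of the points `P` with `exp rad_T(P) ≤ X` is six times the number of their radicals
`I_T(P)`, up to `O(X ^ (2 d / 3 - ν))`;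
(2) for every `M > 1/3` all but `O(X ^ (2 d / 3 - ν))` of the radicals `R`, all but a proportion
`X ^ (-ν)` of them for large `X`, are regular: there is a point `P` with radical `R` such that all
points `Q`, of whatever height and radical, with `dist_T(P, Q) ≤ η log X`, in particular all `Q`
with radical `R`, are permutations of `P` and satisfy `h(Q) < M rad_T(Q)`. -/
theorem result : ∀ (K : Type) [Field K] [NumberField K] (T : Set (HeightOneSpectrum (𝓞 K))),
    T.Finite → ∃ η : ℝ, 0 < η ∧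
    (∃ ν C : ℝ, 0 < ν ∧ 0 < C ∧ ∀ X : ℝ, 1 ≤ X → (Points T X).Finite ∧ (Radicals T X).Finite ∧
      |((Points T X).ncard : ℝ) - 6 * ((Radicals T X).ncard : ℝ)| ≤
        C * X ^ ((Module.finrank ℚ K : ℝ) * (2 / 3) - ν)) ∧
    ∀ M : ℝ, 1 / 3 < M →
      (∃ ν C : ℝ, 0 < ν ∧ 0 < C ∧ ∀ X : ℝ, 1 ≤ X →
        (({R | R ∈ Radicals T X ∧ ¬ Regular T M η X R}.ncard : ℕ) : ℝ) ≤
          C * X ^ ((Module.finrank ℚ K : ℝ) * (2 / 3) - ν)) ∧
      ∃ ν X₀ : ℝ, 0 < ν ∧ ∀ X : ℝ, X₀ ≤ X →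
        (({R | R ∈ Radicals T X ∧ ¬ Regular T M η X R}.ncard : ℕ) : ℝ) ≤
          X ^ (-ν) * ((Radicals T X).ncard : ℝ) := by
  intro K _ _ T hT
  classical
  obtain ⟨T', rfl⟩ : ∃ T' : Finset (Pr K), T = (T' : Set (Pr K)) := ⟨hT.toFinset, by simp⟩
  have hd : (0 : ℝ) < Module.finrank ℚ K := by
    exact_mod_cast (Module.finrank_pos (R := ℚ) (M := K))
  obtain ⟨η, ν, C, hη, hν, hν1, hC, key⟩ := aff_twins K T'
  obtain ⟨C', hC', hrad⟩ := radicals_count T' hη.le hν1 hC key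
  set d : ℝ := (Module.finrank ℚ K : ℝ) with hdd
  refine ⟨η, hη, ⟨d * ν, C', by positivity, hC', hrad⟩, fun M hM => ?_⟩
  obtain ⟨ν₃, C₃, hν₃, hC₃, hirr⟩ := irregular_count T' hν hC key hM
  refine ⟨⟨ν₃, C₃, hν₃, hC₃, hirr⟩, ?_⟩
  set δ : ℝ := min (d * ν) ν₃ / 2 with hδ
  have hδ0 : 0 < δ := by
    rw [hδ]
    exact div_pos (lt_min (by positivity) hν₃) two_pos
  have hδ1 : δ ≤ d * ν / 2 := by
    rw [hδ]
    linarith [min_le_left (d * ν) ν₃]
  have hδ2 : δ ≤ ν₃ / 2 := by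
    rw [hδ]
    linarith [min_le_right (d * ν) ν₃]
  obtain ⟨X₁, hlow⟩ := Pool.Agent.Y728.AK.points_lower K (T' : Set (Pr K)) hT δ hδ0
  have t1 := (tendsto_rpow_atTop (show 0 < d * ν - δ by
    have : 0 < d * ν := by positivity
    linarith)).eventually_ge_atTop (2 * C')
  have t2 := (tendsto_rpow_atTop (show 0 < ν₃ / 4 by positivity)).eventually_ge_atTop (12 * C₃)
  obtain ⟨X₂, ht⟩ := Filter.eventually_atTop.1 (t1.and t2)
  refine ⟨ν₃ / 4, max (max 1 X₁) X₂, by positivity, fun X hX => ?_⟩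
  have hX1 : 1 ≤ X := ((le_max_left _ _).trans (le_max_left _ _)).trans hX
  have hX0 : 0 < X := by linarith
  obtain ⟨u1, u2⟩ := ht X ((le_max_right _ _).trans hX)
  have u3 := hlow X (((le_max_right _ _).trans (le_max_left _ _)).trans hX)
  have u4 := (hrad X hX1).2.2
  have u5 := hirr X hX1
  have hXp : ∀ b : ℝ, 0 < X ^ b := fun b => Real.rpow_pos_of_pos hX0 b
  have v1 : 2 * C' * X ^ (d * (2 / 3) - d * ν) ≤ X ^ (d * (2 / 3) - δ) := by
    calc 2 * C' * X ^ (d * (2 / 3) - d * ν) ≤ X ^ (d * ν - δ) * X ^ (d * (2 / 3) - d * ν) :=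
          mul_le_mul_of_nonneg_right u1 (hXp _).le
      _ = X ^ (d * (2 / 3) - δ) := by
          rw [← Real.rpow_add hX0]
          congr 1
          ring
  have hpts : ((Pool.Agent.Y728.PointsT (T' : Set (Pr K)) X).ncard : ℝ) =
      ((Points (T' : Set (Pr K)) X).ncard : ℝ) := by
    congr 2
    ext P
    constructor
    · rintro ⟨x, hx, a1, a2, a3, a4⟩
      exact ⟨x, hx, a1, ⟨a2, a3⟩, a4⟩
    · rintro ⟨x, hx, a1, a2, a4⟩
      exact ⟨x, hx, a1, a2.1, a2.2, a4⟩
  rw [hpts] at u3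
  have v2 : X ^ (d * (2 / 3) - δ) ≤ 12 * ((Radicals (T' : Set (Pr K)) X).ncard : ℝ) := by
    have := (abs_le.1 u4).2
    linarith
  have v3 : 12 * C₃ * X ^ (d * (2 / 3) - ν₃) ≤ X ^ (-(ν₃ / 4)) * X ^ (d * (2 / 3) - δ) := by
    calc 12 * C₃ * X ^ (d * (2 / 3) - ν₃) ≤ X ^ (ν₃ / 4) * X ^ (d * (2 / 3) - ν₃) :=
          mul_le_mul_of_nonneg_right u2 (hXp _).le
      _ = X ^ (ν₃ / 4 + (d * (2 / 3) - ν₃)) := (Real.rpow_add hX0 _ _).symm
      _ ≤ X ^ (-(ν₃ / 4) + (d * (2 / 3) - δ)) :=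
          Real.rpow_le_rpow_of_exponent_le hX1 (by linarith)
      _ = _ := Real.rpow_add hX0 _ _
  have v4 := mul_le_mul_of_nonneg_left v2 (hXp (-(ν₃ / 4))).le
  linarith

end Pool.Agent.Results.MP_a793bb_nt.RadicalsSeparated
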