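import Pool.Agent.Results.MP_a793bb_nt.ExceptionsAtEveryLevel
import Pool.Agent.R482.ST.Star
import Pool.Agent.R479.DB.Cnt

/-!
# The abc conjecture over all number fields without exceptions near powers, orbits and other sequences

For all real numbers `α > 1` outside a set of Hausdorff dimension at most `20 / (37 (1 - θ))`, in particular for almost
all `α` if `θ < 17 / 37`, and ALL number fields `K`, all finite sets `T` of primes of `K` and all constants `c`, for all
but finitely many `n`, ALL points `P = (x 0 : x 1 : x 2)` over `K` with `x 0 + x 1 + x 2 = 0` and nonzero coordinates whose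
height `H = exp (d h(P))` lies within `c α ^ (θ n)` of `α ^ n` satisfy `h(P) < rad_T(P) - c`: a strong form of the abc
inequality over `K`, without exceptions. The theorem treats other levels than `1` and other sequences than the powers.
-/

set_option autoImplicit false

namespace Pool.Agent.Results.MP_a793bb_nt.StarshapedWindows

open NumberField IsDedekindDomain Pool.Agent.H691R3
open ExceptionsAtEveryLevel (height rad F Exceptions)

section Local

variable {K : Type} [Field K] [NumberField K]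

/-- the height does not depend on the coordinates of the point -/
theorem height_smul {x : Fin 3 → K} (h1 : x 1 ≠ 0) (hs : x 0 + x 1 + x 2 = 0) {c : K} (hc : c ≠ 0) :
    height (fun i => c * x i) = height x := by
  set t : K := x 0 / x 1 with ht
  have hfin : (Function.support fun v : HeightOneSpectrum (𝓞 K) =>
      Real.log (max (fv v t) 1)).Finite := by
    have := log_max_support_finite (K := K) (aff_ne_zero t)
    refine this.subset ?_
    intro v hv
    simp only [Function.mem_support] at hv ⊢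
    intro h
    apply hv
    have h2 : max (fv v (aff t).1) (fv v (aff t).2) = max (fv v t) 1 := by
      show max (fv v t) (fv v 1) = _
      rw [map_one]
    rw [h2] at h
    exact h
  have key : ∀ y : Fin 3 → K, y 1 ≠ 0 → y 0 + y 1 + y 2 = 0 → y 0 / y 1 = t →
      ∑ᶠ v : HeightOneSpectrum (𝓞 K), Real.log (max (FinitePlace.mk v (y 0))
      (max (FinitePlace.mk v (y 1)) (FinitePlace.mk v (y 2)))) =
      ∑ᶠ v : HeightOneSpectrum (𝓞 K), Real.log (fv v (y 1)) +
      ∑ᶠ v : HeightOneSpectrum (𝓞 K), Real.log (max (fv v t) 1) := by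
    intro y hy hys hyt
    rw [← finsum_add_distrib (log_fv_support_finite hy) hfin]
    refine finsum_congr fun v => ?_
    have hm : (0 : ℝ) < max (fv v t) 1 := lt_max_of_lt_right one_pos
    rw [Pool.Agent.W223.AK.max_fv_eq v hy hys, hyt, Real.log_mul ((fv v).pos hy).ne' hm.ne']
  have e1 := key x h1 hs rfl
  have e2 := key (fun i => c * x i) (mul_ne_zero hc h1) (by linear_combination c * hs)
    (by rw [ht]; exact mul_div_mul_left _ _ hc)
  have p1 := log_product_formula (K := K) h1
  have p2 := log_product_formula (K := K) (mul_ne_zero hc h1)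
  have p3 := log_product_formula (K := K) hc
  unfold height
  congr 1
  rw [e1, e2]
  have hinf : ∑ w : InfinitePlace K, (w.mult : ℝ) *
      Real.log (max (w (c * x 0)) (max (w (c * x 1)) (w (c * x 2)))) =
      ∑ w : InfinitePlace K, (w.mult : ℝ) * Real.log (w c) +
      ∑ w : InfinitePlace K, (w.mult : ℝ) * Real.log (max (w (x 0)) (max (w (x 1)) (w (x 2)))) := by
    rw [← Finset.sum_add_distrib]
    refine Finset.sum_congr rfl fun w _ => ?_
    have hwc : 0 < w c := w.pos_iff.mpr hc
    have hm : 0 < max (w (x 0)) (max (w (x 1)) (w (x 2))) :=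
      lt_of_lt_of_le (w.pos_iff.mpr h1) ((le_max_left _ _).trans (le_max_right _ _))
    rw [map_mul, map_mul, map_mul, ← mul_add, ← Real.log_mul hwc.ne' hm.ne',
      mul_max_of_nonneg _ _ hwc.le, mul_max_of_nonneg _ _ hwc.le]
  have hinf2 : ∑ w : InfinitePlace K, (w.mult : ℝ) * Real.log (w (c * x 1)) =
      ∑ w : InfinitePlace K, (w.mult : ℝ) * Real.log (w c) +
      ∑ w : InfinitePlace K, (w.mult : ℝ) * Real.log (w (x 1)) := by
    rw [← Finset.sum_add_distrib]
    refine Finset.sum_congr rfl fun w _ => ?_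
    rw [map_mul, ← mul_add, ← Real.log_mul (w.pos_iff.mpr hc).ne' (w.pos_iff.mpr h1).ne']
  rw [hinf2] at p2
  linarith

/-- the radical does not depend on the coordinates of the point -/
theorem rad_smul (T : Set (HeightOneSpectrum (𝓞 K))) {x : Fin 3 → K} {c : K} (hc : c ≠ 0) :
    rad T (fun i => c * x i) = rad T x := by
  unfold rad
  congr 1
  refine finsum_congr fun v => ?_
  refine finsum_congr_Prop ?_ fun _ => rfl
  have hpos : fv v c ≠ 0 := ((fv v).pos hc).ne'
  have hiff : ∀ a b : K, FinitePlace.mk v (c * a) = FinitePlace.mk v (c * b) ↔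
      FinitePlace.mk v a = FinitePlace.mk v b := by
    intro a b
    show fv v (c * a) = fv v (c * b) ↔ fv v a = fv v b
    rw [map_mul, map_mul]
    exact ⟨fun h => mul_left_cancel₀ hpos h, fun h => by rw [h]⟩
  rw [hiff, hiff]

end Local

theorem F_nonneg {t : ℝ} (h0 : 0 < t) : 0 ≤ F t := by
  unfold F
  split_ifs <;> linarith

/-- one number field, one finite set of primes, one constant -/
theorem core (K : Type) [Field K] [NumberField K] {T : Set (HeightOneSpectrum (𝓞 K))} (hT : T.Finite)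
    {t : ℝ} (ht0 : 0 < t) (ht3 : t ≤ 3) (c₀ : ℝ) {a₀ τ θ : ℝ} {f : ℕ → ℝ → ℝ}
    (hf : Pool.Agent.R482.ST.Starshaped a₀ f) (hτ : 0 ≤ τ) (hv : Pool.Agent.R482.ST.Conv a₀ f τ)
    (hθ : θ < 1) :
    ∃ E : Set ℝ, dimH E ≤ ENNReal.ofReal ((F t + τ) / (1 - θ)) ∧ ∀ α : ℝ, a₀ < α → α ∉ E → ∀ κ : ℝ,
      ∃ n₀ : ℕ, ∀ n : ℕ, n₀ ≤ n → ∀ x : Fin 3 → K, x 0 + x 1 + x 2 = 0 → x 0 * x 1 * x 2 ≠ 0 →
        rad T x ≤ t * height x + c₀ →
          κ * (f n α) ^ θ < |Real.exp ((Module.finrank ℚ K : ℝ) * height x) - f n α| := by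
  classical
  set d : ℝ := (Module.finrank ℚ K : ℝ) with hd
  have hdpos : 0 < d := by
    rw [hd]
    exact_mod_cast Module.finrank_pos
  set p : K → Fin 3 → K := fun u => ![u, 1, -(u + 1)] with hp
  have p0 : ∀ u, p u 0 = u := fun u => rfl
  have p1 : ∀ u, p u 1 = 1 := fun u => rfl
  have p2 : ∀ u, p u 2 = -(u + 1) := fun u => rfl
  have pne : ∀ u, p u ≠ 0 := fun u h => one_ne_zero (α := K) (by rw [← p1 u, h]; rfl)
  set S : Set K := {u | u ≠ 0 ∧ u + 1 ≠ 0 ∧ rad T (p u) ≤ t * height (p u) + c₀} with hS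
  obtain ⟨E, hE1, hE2⟩ := Pool.Agent.R482.ST.windows S (fun u => Real.exp (d * height (p u))) hf hτ hv
    (F_nonneg ht0) hθ (by
      intro ε hε
      obtain ⟨C, hC⟩ := ExceptionsAtEveryLevel.result K T hT t c₀ (ε * d) ht0 ht3 (by positivity)
      refine ⟨C, fun X hX => ?_⟩
      have hX0 : 0 < X := by linarith
      have hB : (1 : ℝ) ≤ X ^ (1 / d) := Real.one_le_rpow hX (by positivity)
      obtain ⟨hfin, hcard⟩ := hC (X ^ (1 / d)) hB
      have hmaps : Set.MapsTo (fun u => Projectivization.mk K (p u) (pne u))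
          {u | u ∈ S ∧ Real.exp (d * height (p u)) ≤ X} (Exceptions T t c₀ (X ^ (1 / d))) := by
        rintro u ⟨⟨h0, h1, hr⟩, hX1⟩
        refine ⟨p u, pne u, rfl, ?_, ?_, ?_, hr⟩
        · rw [p0, p1, p2]; ring
        · rw [p0, p1, p2]
          exact mul_ne_zero (mul_ne_zero h0 one_ne_zero) (neg_ne_zero.2 h1)
        · have e1 : Real.exp (height (p u)) = (Real.exp (d * height (p u))) ^ (1 / d) := by
            rw [← Real.exp_mul]
            congr 1
            field_simp
          rw [e1]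
          exact Real.rpow_le_rpow (Real.exp_pos _).le hX1 (by positivity)
      have hinj : Set.InjOn (fun u => Projectivization.mk K (p u) (pne u))
          {u | u ∈ S ∧ Real.exp (d * height (p u)) ≤ X} := by
        intro u _ w _ huw
        obtain ⟨c, hc⟩ := (Projectivization.mk_eq_mk_iff' K _ _ (pne u) (pne w)).1 huw
        have c1 : c * p w 1 = p u 1 := by
          have := congrFun hc 1
          simpa using this
        have c0 : c * p w 0 = p u 0 := by
          have := congrFun hc 0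
          simpa using this
        rw [p1, p1, mul_one] at c1
        rw [c1, one_mul, p0, p0] at c0
        exact c0.symm
      have hfin2 := Set.Finite.of_injOn hmaps hinj hfin
      refine ⟨hfin2, ?_⟩
      have h3 := Set.ncard_le_ncard_of_injOn _ hmaps hinj hfin
      refine (Nat.cast_le.2 h3).trans (hcard.trans (le_of_eq ?_))
      rw [← Real.rpow_mul hX0.le]
      congr 2
      rw [← hd]
      field_simp)
  refine ⟨E, hE1, fun α hα hαE κ => ?_⟩
  obtain ⟨n₀, hn⟩ := hE2 α hα hαE κ
  refine ⟨n₀, fun n hn1 x hs hne hr => ?_⟩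
  have h1 : x 1 ≠ 0 := fun h => hne (by rw [h]; ring)
  have h0 : x 0 ≠ 0 := fun h => hne (by rw [h]; ring)
  have h2 : x 2 ≠ 0 := fun h => hne (by rw [h]; ring)
  set u : K := x 0 / x 1 with hu
  have hux : (fun i => x 1 * p u i) = x := by
    funext i
    have hsum : x 1 * (x 0 / x 1 + 1) = x 0 + x 1 := by
      field_simp
    fin_cases i
    · show x 1 * (x 0 / x 1) = x 0
      field_simp
    · show x 1 * 1 = x 1
      ring
    · show x 1 * (-(x 0 / x 1 + 1)) = x 2
      rw [mul_neg, hsum]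
      linear_combination -hs
  have hpu : p u 0 + p u 1 + p u 2 = 0 := by
    rw [p0, p1, p2]; ring
  have hh : height x = height (p u) := by
    rw [← hux]
    exact height_smul (by rw [p1]; exact one_ne_zero) hpu h1
  have hrr : rad T x = rad T (p u) := by
    rw [← hux]
    exact rad_smul T h1
  rw [hh]
  apply hn n hn1 u
  refine ⟨div_ne_zero h0 h1, ?_, ?_⟩
  · intro h
    apply h2
    have : x 2 = -(x 1 * (x 0 / x 1 + 1)) := by
      have hsum : x 1 * (x 0 / x 1 + 1) = x 0 + x 1 := by
        field_simp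
      rw [hsum]
      linear_combination hs
    rw [this, ← hu, h, mul_zero, neg_zero]
  · rw [← hrr, ← hh]
    exact hr

theorem countable_fields : Countable {K : IntermediateField ℚ (AlgebraicClosure ℚ) // FiniteDimensional ℚ K} := by
  have hA : Countable (AlgebraicClosure ℚ) := by
    have h := Algebraic.countable ℚ (AlgebraicClosure ℚ)
    have h2 : {x : AlgebraicClosure ℚ | IsAlgebraic ℚ x} = Set.univ :=
      Set.eq_univ_of_forall fun x => (AlgebraicClosure.isAlgebraic ℚ).isAlgebraic x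
    rw [h2] at h
    exact Set.countable_univ_iff.1 h
  have hsurj : ∀ K : {K : IntermediateField ℚ (AlgebraicClosure ℚ) // FiniteDimensional ℚ K},
      ∃ s : Finset (AlgebraicClosure ℚ), IntermediateField.adjoin ℚ (s : Set (AlgebraicClosure ℚ)) = K.1 := by
    rintro ⟨K, hK⟩
    exact IntermediateField.essFiniteType_iff.1 inferInstance
  choose g hg using hsurj
  have hinj : Function.Injective g := by
    intro K L h
    apply Subtype.ext
    rw [← hg K, ← hg L, h]
  exact hinj.countable

/-- the functions `f n` are positive on `(a, ∞)`, `a ≥ 0`, and `f n x / x` is nondecreasing there -/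
def Starshaped (a : ℝ) (f : ℕ → ℝ → ℝ) : Prop :=
  0 ≤ a ∧ ∀ n : ℕ, ∀ x y : ℝ, a < x → x ≤ y → 0 < f n x ∧ f n x / x ≤ f n y / y

/-- for each `x > a` the exponent of convergence of the sequence `f n x` is at most `τ` -/
def ExpLe (a : ℝ) (f : ℕ → ℝ → ℝ) (τ : ℝ) : Prop :=
  ∀ x : ℝ, a < x → ∀ t : ℝ, τ < t → Summable (fun n : ℕ => (f n x) ^ (-t))

/-- **Theorem.** Let `f` be starshaped functions on `(a₀, ∞)` of exponent of convergence at most `τ ≥ 0`, `θ < 1` and
`0 < t ≤ 3`. There is a set `E` of Hausdorff dimension at most `(F t + τ) / (1 - θ)` such that for each `α > a₀` outside `E`,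
all number fields `K` (in a fixed algebraic closure of `ℚ`), all finite sets `T` of primes of `K` and all `c` and `κ`, for all
but finitely many `n`, ALL points `P = (x 0 : x 1 : x 2)` over `K` with `x 0 + x 1 + x 2 = 0` and nonzero coordinates whose
height `H = exp (d h(P))`, `d` the degree of `K`, satisfies `|H - f_n(α)| ≤ κ f_n(α) ^ θ` have `rad_T(P) > t h(P) + c`.
The functions `v_n x`, `v_n > 0`, are starshaped on `(0, ∞)`, of exponent `τ` if `v` has exponent of convergence at most
`τ`; the functions `x ^ (v_n)`, `v_n ≥ 1`, are starshaped on `(1, ∞)`, of exponent `0` if the sums of `exp (-t v_n)` converge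
for `t > 0`; and the iterates of a map `g` with `g(x) > x` for `x > a` and `g(x) / x` nondecreasing are starshaped on
`(a, ∞)`, of exponent `0`. -/
theorem result :
    (∀ (a₀ : ℝ) (f : ℕ → ℝ → ℝ) (τ θ t : ℝ), Starshaped a₀ f → 0 ≤ τ → ExpLe a₀ f τ → θ < 1 → 0 < t → t ≤ 3 →
      ∃ E : Set ℝ, dimH E ≤ ENNReal.ofReal ((F t + τ) / (1 - θ)) ∧
        ∀ α : ℝ, a₀ < α → α ∉ E →
          ∀ (K : IntermediateField ℚ (AlgebraicClosure ℚ)) [NumberField K] (T : Set (HeightOneSpectrum (𝓞 K))),
            T.Finite → ∀ c κ : ℝ, ∃ n₀ : ℕ, ∀ n : ℕ, n₀ ≤ n → ∀ x : Fin 3 → K, x 0 + x 1 + x 2 = 0 →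
              x 0 * x 1 * x 2 ≠ 0 →
                |Real.exp ((Module.finrank ℚ K : ℝ) * height x) - f n α| ≤ κ * (f n α) ^ θ →
                  t * height x + c < rad T x) ∧
    (∀ (v : ℕ → ℝ) (τ : ℝ), (∀ n, 0 < v n) → (∀ t : ℝ, τ < t → Summable (fun n : ℕ => (v n) ^ (-t))) →
      Starshaped 0 (fun n x => v n * x) ∧ ExpLe 0 (fun n x => v n * x) τ) ∧
    (∀ v : ℕ → ℝ, (∀ n, 1 ≤ v n) → (∀ t : ℝ, 0 < t → Summable fun n : ℕ => Real.exp (-(t * v n))) →
      Starshaped 1 (fun n x => x ^ (v n)) ∧ ExpLe 1 (fun n x => x ^ (v n)) 0) ∧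
    (∀ (a : ℝ) (g : ℝ → ℝ), 0 ≤ a → (∀ x y : ℝ, a < x → x ≤ y → g x / x ≤ g y / y) → (∀ x : ℝ, a < x → x < g x) →
      Starshaped a (fun n x => g^[n] x) ∧ ExpLe a (fun n x => g^[n] x) 0) := by
  refine ⟨fun a₀ f τ θ t hf hτ hE hθ ht0 ht3 => ?_, Pool.Agent.R482.ST.ex_mul, Pool.Agent.R482.ST.ex_pow,
    Pool.Agent.R482.ST.ex_orbit⟩
  have hall : ∀ (K : IntermediateField ℚ (AlgebraicClosure ℚ)) (hK : NumberField K)
      (T : Finset (HeightOneSpectrum (𝓞 K))) (k : ℕ), ∃ E : Set ℝ,
      dimH E ≤ ENNReal.ofReal ((F t + τ) / (1 - θ)) ∧ ∀ α : ℝ, a₀ < α → α ∉ E → ∀ κ : ℝ,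
      ∃ n₀ : ℕ, ∀ n : ℕ, n₀ ≤ n → ∀ x : Fin 3 → K, x 0 + x 1 + x 2 = 0 → x 0 * x 1 * x 2 ≠ 0 →
        rad (T : Set (HeightOneSpectrum (𝓞 K))) x ≤ t * height x + (k : ℝ) →
          κ * (f n α) ^ θ < |Real.exp ((Module.finrank ℚ K : ℝ) * height x) - f n α| :=
    fun K hK T k => core K T.finite_toSet ht0 ht3 (k : ℝ) hf hτ hE hθ
  choose E hE1 hE2 using hall
  have hcount : Countable {K : IntermediateField ℚ (AlgebraicClosure ℚ) // FiniteDimensional ℚ K} :=
    countable_fields
  have hnf : ∀ K : {K : IntermediateField ℚ (AlgebraicClosure ℚ) // FiniteDimensional ℚ K},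
      NumberField K.1 := fun K => by
    have := K.2
    exact { to_charZero := inferInstance, to_finiteDimensional := K.2 }
  refine ⟨⋃ K : {K : IntermediateField ℚ (AlgebraicClosure ℚ) // FiniteDimensional ℚ K},
    ⋃ T : Finset (HeightOneSpectrum (𝓞 K.1)), ⋃ k : ℕ, E K.1 (hnf K) T k, ?_, fun α hα hαE K hK T hT c κ => ?_⟩
  · rw [dimH_iUnion]
    refine iSup_le fun K => ?_
    have := hnf K
    have := Pool.Agent.R479.DB.countable_primes K.1
    rw [dimH_iUnion]
    refine iSup_le fun T => ?_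
    rw [dimH_iUnion]
    exact iSup_le fun k => hE1 K.1 (hnf K) T k
  · obtain ⟨k, hk⟩ := exists_nat_ge c
    have hKfd : FiniteDimensional ℚ K := hK.to_finiteDimensional
    obtain ⟨n₀, hn⟩ := hE2 K hK hT.toFinset k α hα (fun h => hαE (Set.mem_iUnion.2 ⟨⟨K, hKfd⟩,
      Set.mem_iUnion.2 ⟨hT.toFinset, Set.mem_iUnion.2 ⟨k, h⟩⟩⟩)) κ
    refine ⟨n₀, fun n hn1 x hs hne hw => ?_⟩
    by_contra hcon
    push Not at hcon
    refine absurd (hn n hn1 x hs hne ?_) (not_lt.2 hw)
    rw [hT.coe_toFinset]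
    linarith

end Pool.Agent.Results.MP_a793bb_nt.StarshapedWindows
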