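import Pool.Agent.K6.H25.RS.Supp
import Pool.Agent.Results.MP_a793bb_nt.SharpCount

/-!
# The other solutions composed of the primes of a typical abc triple are bounded

`K` is a number field of degree `d`, `T` a finite set of primes of `K`. The points
`P = (a : b : c)` over `K` with `a + b + c = 0` and `abc ≠ 0`, of all heights, are ordered by their
radical; `I_T(P)` is the set of the primes outside `T` at which the valuations of the coordinates
are not all equal. The points `Q` with `I_T(Q) ⊆ I_T(P)` are the solutions of the unit equation of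
the primes of `P` (and `T`). For every `ε > 0` there is a bound `B` such that for all but a
proportion `ε` of the points `P` all these solutions are permutations of `P` or have height at most
`B`, and `P` itself satisfies `h(P) ≤ rad_T(P) / 3 + B`. The quantitative form is
`O((exp (- d b / 48) + X ^ (-ν)) X ^ (2 d / 3))` points for which there is another solution `Q` with
`rad_T(Q) ≥ b`, and here a small part of the radical of `Q` may lie outside the radical of `P`.

If `rad_T(Q)` is almost as large as possible, `P` and `Q` have almost the same radical, and this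
was treated in `K6.H25.RS`. Otherwise the points `P` of small height whose radical contains a
given set `s` of primes lie in `3 ^ |s|` lattices (congruences at the primes of `s`), so that there
are few of them, and one sums over the points `Q` and over the sets `s` of primes of `Q`. The
points `P` of larger height are few by the starting theorem `SharpCount`.
-/

set_option autoImplicit false
set_option linter.unusedSectionVars false

namespace Pool.Agent.Results.MP_a793bb_nt.SupportedSolutions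

open NumberField IsDedekindDomain

variable {K : Type} [Field K] [NumberField K]

/-- the height `h(P)` of the point `P` with coordinates `x` -/
noncomputable def height (x : Fin 3 → K) : ℝ :=
  (∑ w : InfinitePlace K, (w.mult : ℝ) * Real.log (max (w (x 0)) (max (w (x 1)) (w (x 2)))) +
    ∑ᶠ v : HeightOneSpectrum (𝓞 K), Real.log
      (max (FinitePlace.mk v (x 0)) (max (FinitePlace.mk v (x 1)) (FinitePlace.mk v (x 2))))) /
    (Module.finrank ℚ K : ℝ)

/-- the coordinates of a point of the line `a + b + c = 0` with `abc ≠ 0` -/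
def IsPoint (x : Fin 3 → K) : Prop := x 0 + x 1 + x 2 = 0 ∧ x 0 * x 1 * x 2 ≠ 0

/-- the set `I_T(P)`: the primes `v ∉ T` at which the valuations of the coordinates are not all
equal -/
def supp (T : Set (HeightOneSpectrum (𝓞 K))) (x : Fin 3 → K) : Set (HeightOneSpectrum (𝓞 K)) :=
  {v | v ∉ T ∧ ¬ (FinitePlace.mk v (x 0) = FinitePlace.mk v (x 1) ∧
    FinitePlace.mk v (x 1) = FinitePlace.mk v (x 2))}

/-- the radical `rad_T(P)`: the sum of `log N(v) / d` over the primes of `I_T(P)` -/
noncomputable def rad (T : Set (HeightOneSpectrum (𝓞 K))) (x : Fin 3 → K) : ℝ :=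
  (∑ᶠ (v : HeightOneSpectrum (𝓞 K)) (_ : v ∈ supp T x),
    Real.log (Ideal.absNorm v.asIdeal : ℝ)) / (Module.finrank ℚ K : ℝ)

/-- the part of the radical of `Q` outside the radical of `P`, where `x`, `y` are the coordinates
of `P`, `Q`: the sum of `log N(v) / d` over the primes of `I_T(Q)` which are not in `I_T(P)` -/
noncomputable def outside (T : Set (HeightOneSpectrum (𝓞 K))) (x y : Fin 3 → K) : ℝ :=
  (∑ᶠ (v : HeightOneSpectrum (𝓞 K)) (_ : v ∈ supp T y \ supp T x),
    Real.log (Ideal.absNorm v.asIdeal : ℝ)) / (Module.finrank ℚ K : ℝ)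

/-- the points with coordinates `x` and `y` differ by a permutation of the coordinates -/
def Permuted (x y : Fin 3 → K) : Prop :=
  ∃ (σ : Equiv.Perm (Fin 3)) (t : K), t ≠ 0 ∧ ∀ l, y l = t * x (σ l)

/-- the points `P` with `exp rad_T(P) ≤ X` -/
def Points (T : Set (HeightOneSpectrum (𝓞 K))) (X : ℝ) :
    Set (Projectivization K (Fin 3 → K)) :=
  {P | ∃ (x : Fin 3 → K) (hx : x ≠ 0), P = Projectivization.mk K x hx ∧ IsPoint x ∧
    Real.exp (rad T x) ≤ X}

/-- those among them for which there is a point `Q`, of whatever height, which is not a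
permutation of `P`, with `rad_T(Q) ≥ b` and such that the part of the radical of `Q` outside the
radical of `P` is at most `η rad_T(Q)` -/
def Supporting (T : Set (HeightOneSpectrum (𝓞 K))) (η b X : ℝ) :
    Set (Projectivization K (Fin 3 → K)) :=
  {P | ∃ (x : Fin 3 → K) (hx : x ≠ 0), P = Projectivization.mk K x hx ∧ IsPoint x ∧
    Real.exp (rad T x) ≤ X ∧ ∃ y : Fin 3 → K, IsPoint y ∧ ¬ Permuted x y ∧
      b ≤ rad T y ∧ outside T x y ≤ η * rad T y}

/-- `P` satisfies `h(P) ≤ rad_T(P) / 3 + B`, and every point `Q` with `I_T(Q) ⊆ I_T(P)` is a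
permutation of `P` or has height at most `B` -/
def Typical (T : Set (HeightOneSpectrum (𝓞 K))) (B : ℝ) (x : Fin 3 → K) : Prop :=
  height x ≤ rad T x / 3 + B ∧
    ∀ y : Fin 3 → K, IsPoint y → supp T y ⊆ supp T x → Permuted x y ∨ height y ≤ B

/-- the points `P` with `exp rad_T(P) ≤ X` which do not have this property -/
def Atypical (T : Set (HeightOneSpectrum (𝓞 K))) (B X : ℝ) :
    Set (Projectivization K (Fin 3 → K)) :=
  {P | ∃ (x : Fin 3 → K) (hx : x ≠ 0), P = Projectivization.mk K x hx ∧ IsPoint x ∧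
    Real.exp (rad T x) ≤ X ∧ ¬ Typical T B x}

section Bridge

open Pool.Agent.K6.H25.RS Pool.Agent.TH876.Loc

theorem coord {x : Fin 3 → K} (hx : IsPoint x) (l : Fin 3) : x l = x 1 * cc l (x 0 / x 1) := by
  have h1 : x 1 ≠ 0 := fun h => hx.2 (by rw [h]; ring)
  fin_cases l
  · show x 0 = x 1 * (x 0 / x 1)
    field_simp
  · show x 1 = x 1 * 1
    rw [mul_one]
  · show x 2 = x 1 * (-(x 0 / x 1) - 1)
    field_simp
    linear_combination hx.1

theorem permuted_of {x y : Fin 3 → K} (hx : IsPoint x) (hy : IsPoint y)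
    (h : IsPerm (x 0 / x 1) (y 0 / y 1)) : Permuted x y := by
  obtain ⟨σ, t, ht, h⟩ := h
  have h1 : x 1 ≠ 0 := fun h => hx.2 (by rw [h]; ring)
  have h2 : y 1 ≠ 0 := fun h => hy.2 (by rw [h]; ring)
  refine ⟨σ, y 1 * t / x 1, div_ne_zero (mul_ne_zero h2 ht) h1, fun l => ?_⟩
  rw [coord hx (σ l), coord hy l, h l]
  field_simp

theorem rad_eq (T : Finset (Pr K)) (x : Fin 3 → K) :
    rad (T : Set (Pr K)) x = Pool.Agent.Y728.radT (T : Set (Pr K)) x := rfl

theorem height_eq (x : Fin 3 → K) : height x = Pool.Agent.Y728.AK.height3 x := rfl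

open Classical in
theorem supp_eq (T : Finset (Pr K)) {x : Fin 3 → K} (hx : IsPoint x) :
    supp (T : Set (Pr K)) x = ((sp (x 0 / x 1) \ T : Finset (Pr K)) : Set (Pr K)) := by
  ext v
  rw [Finset.mem_coe, Finset.mem_sdiff, sp_of_triple hx.1 hx.2 v]
  exact and_comm

theorem rad_lr (T : Finset (Pr K)) {x : Fin 3 → K} (hx : IsPoint x) :
    (Module.finrank ℚ K : ℝ) * rad (T : Set (Pr K)) x = lr T (x 0 / x 1) := by
  classical
  rw [rad_eq]
  have h := Pool.Agent.Y728.AK.radT_eq T hx.1 hx.2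
  rw [h]
  unfold lr
  congr

open Classical in
theorem outside_eq (T : Finset (Pr K)) {x y : Fin 3 → K} (hx : IsPoint x) (hy : IsPoint y) :
    (Module.finrank ℚ K : ℝ) * outside (T : Set (Pr K)) x y =
      Real.log (nn ((sp (y 0 / y 1) \ sp (x 0 / x 1)) \ T)) := by
  have hd : (Module.finrank ℚ K : ℝ) ≠ 0 := by
    exact_mod_cast (Module.finrank_pos (R := ℚ) (M := K)).ne'
  have h1 : supp (T : Set (Pr K)) y \ supp (T : Set (Pr K)) x =
      (((sp (y 0 / y 1) \ sp (x 0 / x 1)) \ T : Finset (Pr K)) : Set (Pr K)) := by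
    rw [supp_eq T hx, supp_eq T hy]
    ext v
    rw [Set.mem_sdiff, Finset.mem_coe, Finset.mem_coe, Finset.mem_coe]
    simp only [Finset.mem_sdiff]
    tauto
  unfold outside
  rw [h1, mul_div_cancel₀ _ hd, Pool.Agent.TH876.KR.log_nn]
  exact finsum_mem_coe_finset _ _

theorem height_hgt {x : Fin 3 → K} (hx : IsPoint x) :
    (Module.finrank ℚ K : ℝ) * height x = hgt (x 0 / x 1) := by
  rw [height_eq]
  exact Pool.Agent.Y728.AK.height3_eq hx.1 hx.2

end Bridge

open Pool.Agent.K6.H25.RS Pool.Agent.TH876.Loc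

open Classical in
theorem supporting_count (T : Finset (Pr K)) {η ν C : ℝ} (hC : 0 < C)
    (key : ∀ (X b : ℝ), 1 ≤ X → 0 ≤ b → ∀ E : Finset K,
    (∀ x ∈ E, Pt x ∧ nn (sp x \ T) ≤ X ∧ ∃ y, Pt y ∧ ¬ IsPerm x y ∧ b ≤ lr T y ∧
      Real.log (nn ((sp y \ sp x) \ T)) ≤ η * lr T y) →
    (E.card : ℝ) ≤ C * (Real.exp (-(b / 48)) + X ^ (-ν)) * X ^ (2 / 3 : ℝ)) {X b : ℝ}
    (hX : 1 ≤ X) (hb : 0 ≤ b) :
    (Supporting (T : Set (Pr K)) η b X).Finite ∧
      ((Supporting (T : Set (Pr K)) η b X).ncard : ℝ) ≤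
      C * (Real.exp (-((Module.finrank ℚ K : ℝ) * b / 48)) +
        X ^ (-((Module.finrank ℚ K : ℝ) * ν))) * X ^ (2 / (3 : ℝ) * Module.finrank ℚ K) := by
  have hX0 : 0 < X := by linarith
  have hd : (0 : ℝ) < Module.finrank ℚ K := by
    exact_mod_cast (Module.finrank_pos (R := ℚ) (M := K))
  set d : ℝ := (Module.finrank ℚ K : ℝ) with hdd
  refine transfer (Supporting (T : Set (Pr K)) η b X) (fun z => nn (sp z \ T) ≤ X ^ d ∧
    ∃ y, Pt y ∧ ¬ IsPerm z y ∧ d * b ≤ lr T y ∧
      Real.log (nn ((sp y \ sp z) \ T)) ≤ η * lr T y) _ (by positivity) ?_ ?_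
  · rintro P ⟨x, hx0, h1, h2, h3, y, h4, h5, h6, h7⟩
    refine ⟨x, hx0, h1, h2.1, h2.2, ?_, y 0 / y 1,
      pt_of_triple h4.1 h4.2, fun h => h5 (permuted_of h2 h4 h), ?_, ?_⟩
    · have e1 := rad_lr T h2
      have e2 : rad (T : Set (Pr K)) x ≤ Real.log X := (Real.le_log_iff_exp_le hX0).2 h3
      have e3 := mul_le_mul_of_nonneg_left e2 hd.le
      rw [← hdd] at e1
      rw [e1] at e3
      have e4 : d * Real.log X = Real.log (X ^ d) := (Real.log_rpow hX0 d).symm
      rw [e4] at e3
      have e5 := (Real.le_log_iff_exp_le (Real.rpow_pos_of_pos hX0 d)).1 e3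
      unfold lr at e5
      rw [Real.exp_log (nn_pos _)] at e5
      exact e5
    · rw [← rad_lr T h4, ← hdd]
      exact mul_le_mul_of_nonneg_left h6 hd.le
    · rw [← outside_eq T h2 h4, ← rad_lr T h4, ← hdd]
      have := mul_le_mul_of_nonneg_left h7 hd.le
      linarith
  · intro E hE
    refine (key (X ^ d) (d * b) (Real.one_le_rpow hX hd.le) (by positivity) E hE).trans
      (le_of_eq ?_)
    rw [← Real.rpow_mul hX0.le, ← Real.rpow_mul hX0.le]
    congr 2
    · congr 2
      ring
    · ring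

/-- the heights of the points with bounded radical are bounded -/
theorem height_bounded (T : Finset (Pr K)) (b : ℝ) (hb : 0 ≤ b) : ∃ B : ℝ,
    ∀ y : Fin 3 → K, IsPoint y → rad (T : Set (Pr K)) y ≤ b → height y ≤ B := by
  classical
  have hd : (0 : ℝ) < Module.finrank ℚ K := by
    exact_mod_cast (Module.finrank_pos (R := ℚ) (M := K))
  set d : ℝ := (Module.finrank ℚ K : ℝ) with hdd
  have hfin := AP_finite (K := K) T (Real.one_le_exp (show 0 ≤ d * b by positivity))
  obtain ⟨M, hM⟩ := (hfin.image (fun z => hgt z)).bddAbove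
  refine ⟨M / d, fun y hy hyb => ?_⟩
  rw [le_div_iff₀ hd, mul_comm, hdd, height_hgt hy]
  refine hM ⟨y 0 / y 1, ?_, rfl⟩
  refine ⟨pt_of_triple hy.1 hy.2, ?_⟩
  have h1 := mul_le_mul_of_nonneg_left hyb hd.le
  rw [hdd, rad_lr T hy, ← hdd] at h1
  have h2 := Real.exp_le_exp.2 h1
  unfold lr at h2
  rw [Real.exp_log (nn_pos _)] at h2
  convert h2

/-- **The other solutions composed of the primes of a typical abc triple are bounded.** Let `K` be
a number field of degree `d` and `T` a finite set of primes of `K`.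
(1) There are `η, ν, C > 0` such that for all `X ≥ 1` and `b ≥ 0` at most
`C (exp (- d b / 48) + X ^ (-ν)) X ^ (2 d / 3)` of the points `P` with `exp rad_T(P) ≤ X` (whatever
their height) have the property: there is a point `Q`, of whatever height, which is not a
permutation of `P`, with `rad_T(Q) ≥ b` and such that the part of the radical of `Q` outside the
radical of `P` is at most `η rad_T(Q)`.
(2) For every `ε > 0` there is `B` such that for all large `X` all but a proportion `ε` of the points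
`P` with `exp rad_T(P) ≤ X` satisfy `h(P) ≤ rad_T(P) / 3 + B`, and every point `Q` with
`I_T(Q) ⊆ I_T(P)` is a permutation of `P` or has height at most `B`. -/
theorem result : ∀ (K : Type) [Field K] [NumberField K] (T : Set (HeightOneSpectrum (𝓞 K))),
    T.Finite →
    (∃ η ν C : ℝ, 0 < η ∧ 0 < ν ∧ 0 < C ∧ ∀ X b : ℝ, 1 ≤ X → 0 ≤ b →
      (Supporting T η b X).Finite ∧
      ((Supporting T η b X).ncard : ℝ) ≤
        C * (Real.exp (-((Module.finrank ℚ K : ℝ) * b / 48)) + X ^ (-ν)) *
          X ^ (2 / (3 : ℝ) * Module.finrank ℚ K)) ∧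
    ∀ ε : ℝ, 0 < ε → ∃ B X₀ : ℝ, ∀ X : ℝ, X₀ ≤ X → (Points T X).Finite ∧
      ((Atypical T B X).ncard : ℝ) ≤ ε * ((Points T X).ncard : ℝ) := by
  intro K _ _ T hT
  classical
  obtain ⟨T', rfl⟩ : ∃ T' : Finset (Pr K), T = (T' : Set (Pr K)) := ⟨hT.toFinset, by simp⟩
  have hd : (0 : ℝ) < Module.finrank ℚ K := by
    exact_mod_cast (Module.finrank_pos (R := ℚ) (M := K))
  obtain ⟨η, ν, C, hη, hν, hC, key⟩ := aff_supported K T'
  have key2 := fun (X b : ℝ) (hX : 1 ≤ X) (hb : 0 ≤ b) => supporting_count T' hC key hX hb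
  set d : ℝ := (Module.finrank ℚ K : ℝ) with hdd
  have hdν : 0 < d * ν := by positivity
  refine ⟨⟨η, d * ν, C, hη, hdν, hC, key2⟩, fun ε hε => ?_⟩
  obtain ⟨hfin, ⟨c₁, c₂, X₁, hc₁, hcount⟩, hexc, -⟩ :=
    Pool.Agent.Results.MP_a793bb_nt.SharpCount.result K (T' : Set (Pr K)) hT
  obtain ⟨C₂, ν₂, hν₂, hexc⟩ := hexc (1 / 4) (by norm_num) (by norm_num)
  set C₃ : ℝ := |C₂| + 1 with hC₃
  have hC₃0 : 0 < C₃ := by positivity
  have hC₂₃ : C₂ ≤ C₃ := by
    have := le_abs_self C₂
    linarith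
  -- the choice of `b`
  set δ : ℝ := ε * c₁ / 4 with hδ
  have hδ0 : 0 < δ := by positivity
  have lim1 : ∀ a A : ℝ, 0 < a → 0 < A → ∃ b : ℝ, 0 ≤ b ∧ A * Real.exp (-(a * b)) ≤ δ := by
    intro a A ha hA
    refine ⟨max 0 (Real.log (A / δ) / a), le_max_left _ _, ?_⟩
    have h1 : Real.log (A / δ) ≤ a * max 0 (Real.log (A / δ) / a) := by
      have := mul_le_mul_of_nonneg_left (le_max_right 0 (Real.log (A / δ) / a)) ha.le
      rwa [mul_div_cancel₀ _ ha.ne'] at this
    have h2 : Real.exp (-(a * max 0 (Real.log (A / δ) / a))) ≤ δ / A := by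
      have h3 : δ / A = Real.exp (-(Real.log (A / δ))) := by
        rw [Real.exp_neg, Real.exp_log (by positivity), inv_div]
      rw [h3]
      exact Real.exp_le_exp.2 (by linarith)
    calc A * Real.exp (-(a * max 0 (Real.log (A / δ) / a))) ≤ A * (δ / A) :=
          mul_le_mul_of_nonneg_left h2 hA.le
      _ = δ := mul_div_cancel₀ _ hA.ne'
  obtain ⟨b, hb, hb1⟩ := lim1 (d / 48) C (by positivity) hC
  obtain ⟨B₁, hB₁, hB₂⟩ := lim1 (3 / 4 * d) C₃ (by positivity) hC₃0
  obtain ⟨B₂, hB₃⟩ := height_bounded T' b hb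
  have lim2 : ∀ a A : ℝ, 0 < a → 0 < A → ∃ X₀ : ℝ, ∀ X : ℝ, X₀ ≤ X → A * X ^ (-a) ≤ δ := by
    intro a A ha hA
    have t1 := (tendsto_rpow_neg_atTop ha).eventually_le_const (show (0 : ℝ) < δ / A by positivity)
    obtain ⟨X₀, h⟩ := Filter.eventually_atTop.1 t1
    refine ⟨X₀, fun X hX => ?_⟩
    have := mul_le_mul_of_nonneg_left (h X hX) hA.le
    rwa [mul_div_cancel₀ _ hA.ne'] at this
  obtain ⟨X₂, hX₂⟩ := lim2 (d * ν) C hdν hC
  obtain ⟨X₃, hX₃⟩ := lim2 ν₂ C₃ hν₂ hC₃0
  refine ⟨max B₁ B₂, max (max 1 X₁) (max X₂ X₃), fun X hX => ?_⟩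
  have hX1 : 1 ≤ X := ((le_max_left _ _).trans (le_max_left _ _)).trans hX
  have hX0 : 0 < X := by linarith
  have hXa : X₁ ≤ X := ((le_max_right _ _).trans (le_max_left _ _)).trans hX
  have hXb : X₂ ≤ X := ((le_max_left _ _).trans (le_max_right _ _)).trans hX
  have hXc : X₃ ≤ X := ((le_max_right _ _).trans (le_max_right _ _)).trans hX
  have hpts : Points (T' : Set (Pr K)) X =
      Pool.Agent.Results.MP_a793bb_nt.SharpCount.Points (T' : Set (Pr K)) X := by
    ext P
    constructor
    · rintro ⟨x, hx, a1, a2, a4⟩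
      exact ⟨x, hx, a1, a2.1, a2.2, a4⟩
    · rintro ⟨x, hx, a1, a2, a3, a4⟩
      exact ⟨x, hx, a1, ⟨a2, a3⟩, a4⟩
  have hsub : Atypical (T' : Set (Pr K)) (max B₁ B₂) X ⊆
      Pool.Agent.Results.MP_a793bb_nt.SharpCount.Exceptions (T' : Set (Pr K)) X (3 * B₁) ∪
        Supporting (T' : Set (Pr K)) η b X := by
    rintro P ⟨x, hx, a1, a2, a3, a4⟩
    unfold Typical at a4
    rw [not_and_or, not_le] at a4
    rcases a4 with a4 | a4
    · left
      refine ⟨x, hx, a1, a2.1, a2.2, a3, ?_⟩
      show rad (T' : Set (Pr K)) x + 3 * B₁ ≤ 3 * height x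
      have := le_max_left B₁ B₂
      linarith
    · right
      push Not at a4
      obtain ⟨y, b1, b2, b3, b4⟩ := a4
      refine ⟨x, hx, a1, a2, a3, y, b1, b3, ?_, ?_⟩
      · by_contra hcon
        rw [not_le] at hcon
        have := hB₃ y b1 hcon.le
        have := le_max_right B₁ B₂
        linarith
      · have h1 : outside (T' : Set (Pr K)) x y = 0 := by
          unfold outside
          rw [Set.sdiff_eq_empty.2 b2]
          simp
        rw [h1]
        have h2 := rad_lr T' b1
        have h3 := lr_nonneg T' (y 0 / y 1)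
        rw [← h2] at h3
        have h4 : 0 ≤ rad (T' : Set (Pr K)) y := by
          by_contra hcon
          rw [not_le] at hcon
          have := mul_neg_of_pos_of_neg hd hcon
          rw [hdd] at this
          linarith
        positivity
  obtain ⟨f1, f2⟩ := key2 X b hX1 hb
  have f3 := hexc X (3 * B₁) hX1 (by positivity)
  have f4 := (hcount X hXa).1
  have hfinE : (Pool.Agent.Results.MP_a793bb_nt.SharpCount.Exceptions
      (T' : Set (Pr K)) X (3 * B₁)).Finite := by
    refine (hfin X hX1).subset ?_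
    rintro P ⟨x, hx, a1, a2, a3, a4, -⟩
    exact ⟨x, hx, a1, a2, a3, a4⟩
  refine ⟨by rw [hpts]; exact hfin X hX1, ?_⟩
  rw [hpts]
  have g1 := (Set.ncard_le_ncard hsub (hfinE.union f1)).trans (Set.ncard_union_le _ _)
  have g2 : ((Atypical (T' : Set (Pr K)) (max B₁ B₂) X).ncard : ℝ) ≤
      ((Pool.Agent.Results.MP_a793bb_nt.SharpCount.Exceptions
        (T' : Set (Pr K)) X (3 * B₁)).ncard : ℝ) +
      ((Supporting (T' : Set (Pr K)) η b X).ncard : ℝ) := by exact_mod_cast g1
  have hXp : 0 < X ^ (2 / (3 : ℝ) * d) := Real.rpow_pos_of_pos hX0 _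
  have u1 : C * (Real.exp (-(d * b / 48)) + X ^ (-(d * ν))) ≤ 2 * δ := by
    have e1 := hX₂ X hXb
    have e2 : -(d * b / 48) = -(d / 48 * b) := by ring
    rw [e2]
    linarith
  have u2 : C₂ * (Real.exp (-(1 / 4 * d * (3 * B₁))) + X ^ (-ν₂)) ≤ 2 * δ := by
    have e1 := hX₃ X hXc
    have e2 : -(1 / 4 * d * (3 * B₁)) = -(3 / 4 * d * B₁) := by ring
    have e3 : 0 ≤ Real.exp (-(3 / 4 * d * B₁)) + X ^ (-ν₂) := by positivity
    rw [e2]
    have e4 := mul_le_mul_of_nonneg_right hC₂₃ e3
    linarith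
  have u3 := mul_le_mul_of_nonneg_right u1 hXp.le
  have u4 := mul_le_mul_of_nonneg_right u2 hXp.le
  have u5 : 4 * δ * X ^ (2 / (3 : ℝ) * d) ≤ ε *
      ((Pool.Agent.Results.MP_a793bb_nt.SharpCount.Points (T' : Set (Pr K)) X).ncard : ℝ) := by
    have e1 := mul_le_mul_of_nonneg_left f4 hε.le
    have e2 : 4 * δ = ε * c₁ := by rw [hδ]; ring
    rw [e2, mul_assoc]
    exact e1
  linarith

end Pool.Agent.Results.MP_a793bb_nt.SupportedSolutions
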